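import Pool.Agent.Helper72.FX.StK

/-!
# Project FX, module PR0: parity of the rank, abstract form
-/

set_option autoImplicit false

namespace Pool.Agent.Helper6.FX

open Pool.Agent.Helper72.FX

namespace PR0

open Function

section rk

variable {k A : Type} [CommRing k] [IsDomain k] [CommRing A] [Algebra k A]
  {M N Q : Type} [AddCommGroup M] [Module A M] [Module k M] [IsScalarTower k A M]
  [AddCommGroup N] [Module A N] [Module k N] [IsScalarTower k A N]
  [AddCommGroup Q] [Module A Q] [Module k Q] [IsScalarTower k A Q]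

omit [IsDomain k] in
theorem rs_apply (p : N →ₗ[A] Q) (y : N) : (p.restrictScalars k) y = p y := rfl

theorem rk_exact (i : M →ₗ[A] N) (p : N →ₗ[A] Q) (hi : Injective i) (he : Exact i p)
    (hp : Surjective p) : Module.rank k N = Module.rank k M + Module.rank k Q := by
  have h := LinearMap.rank_range_add_rank_ker (p.restrictScalars k)
  rw [rank_range_of_surjective (p.restrictScalars k) hp] at h
  have h2 : LinearMap.ker (p.restrictScalars k) = LinearMap.range (i.restrictScalars k) := by
    ext y
    exact he y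
  rw [h2, rank_range_of_injective (i.restrictScalars k) hi] at h
  rw [← h, add_comm]

theorem rk_surj (p : N →ₗ[A] Q) (hp : Surjective p) (hN : Module.rank k N < Cardinal.aleph0) :
    Module.rank k Q < Cardinal.aleph0 := by
  have h := LinearMap.rank_range_add_rank_ker (p.restrictScalars k)
  rw [rank_range_of_surjective (p.restrictScalars k) hp] at h
  rw [← h] at hN
  exact lt_of_le_of_lt (self_le_add_right _ _) hN

theorem fr_exact (i : M →ₗ[A] N) (p : N →ₗ[A] Q) (hi : Injective i) (he : Exact i p)
    (hp : Surjective p) (hN : Module.rank k N < Cardinal.aleph0) :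
    Module.finrank k N = Module.finrank k M + Module.finrank k Q := by
  have h := rk_exact (k := k) i p hi he hp
  rw [h] at hN
  have h1 : Module.rank k M < Cardinal.aleph0 := lt_of_le_of_lt (self_le_add_right _ _) hN
  have h2 : Module.rank k Q < Cardinal.aleph0 := lt_of_le_of_lt (self_le_add_left _ _) hN
  unfold Module.finrank
  rw [h, Cardinal.toNat_add h1 h2]

/-- torsion modules have finite rank -/
theorem rk_tor [IsDomain A]
    (hA : ∀ u : A, u ≠ 0 → Module.rank k (A ⧸ Ideal.span {u}) < Cardinal.aleph0)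
    (hf : Module.Finite A N) (ht : ∀ y : N, ∃ u : A, u ≠ 0 ∧ u • y = 0) :
    Module.rank k N < Cardinal.aleph0 := by
  have key : ∀ S : Submodule A N, S.FG → Module.rank k S < Cardinal.aleph0 := by
    intro S hS
    refine Submodule.fg_induction (motive := fun S _ => Module.rank k S < Cardinal.aleph0) ?_ ?_ S hS
    · intro x
      obtain ⟨u, hu, hux⟩ := ht x
      let g : A →ₗ[A] Submodule.span A {x} :=
        LinearMap.toSpanSingleton A (Submodule.span A {x}) ⟨x, Submodule.mem_span_singleton_self x⟩
      have hg : ∀ a, ((g a : Submodule.span A {x}) : N) = a • x := fun a => rfl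
      have hk : Ideal.span {u} ≤ LinearMap.ker g := by
        rw [Ideal.span_singleton_le_iff_mem, LinearMap.mem_ker]
        apply Subtype.ext
        rw [hg, hux]
        rfl
      refine rk_surj ((Ideal.span {u}).liftQ g hk) ?_ (hA u hu)
      rintro ⟨y, hy⟩
      obtain ⟨a, rfl⟩ := Submodule.mem_span_singleton.1 hy
      exact ⟨Submodule.Quotient.mk a, Subtype.ext (hg a)⟩
    · intro S T _ _ hS hT
      have h := Submodule.rank_add_le_rank_add_rank (S.restrictScalars k) (T.restrictScalars k)
      have h2 : S.restrictScalars k ⊔ T.restrictScalars k = (S ⊔ T).restrictScalars k := by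
        ext y
        simp only [Submodule.mem_sup, Submodule.restrictScalars_mem]
      rw [h2] at h
      exact lt_of_le_of_lt h (Cardinal.add_lt_aleph0 hS hT)
  have h := key ⊤ hf.fg_top
  exact rk_surj (Submodule.topEquiv (R := A) (M := N)).toLinearMap
    (Submodule.topEquiv (R := A) (M := N)).surjective h

end rk

section gs

variable {k A : Type} [CommRing k] [IsDomain k] [CommRing A] [IsDomain A] [Algebra k A]
  {N : Type} [AddCommGroup N] [Module A N] [Module k N] [IsScalarTower k A N]

/-- scaling one generator -/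
theorem scal (hE : ∀ u : A, u ≠ 0 → Even (Module.finrank k (A ⧸ Ideal.span {u})))
    (W : Submodule A N) (x : N) (c : A) (hc : c ≠ 0) (hi : ∀ γ : A, γ • x ∈ W → γ = 0)
    (hr : Module.rank k (N ⧸ (W ⊔ Submodule.span A {c • x})) < Cardinal.aleph0) :
    (Module.finrank k (N ⧸ (W ⊔ Submodule.span A {c • x})) : ZMod 2) =
      Module.finrank k (N ⧸ (W ⊔ Submodule.span A {x})) := by
  set S := W ⊔ Submodule.span A {c • x} with hS
  set T := W ⊔ Submodule.span A {x} with hT
  have hxT : x ∈ T := (le_sup_right : Submodule.span A {x} ≤ T) (Submodule.mem_span_singleton_self x)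
  have hcS : c • x ∈ S :=
    (le_sup_right : Submodule.span A {c • x} ≤ S) (Submodule.mem_span_singleton_self _)
  have hST : S ≤ T := by
    refine sup_le le_sup_left ?_
    rw [Submodule.span_singleton_le_iff_mem]
    exact T.smul_mem c hxT
  have hk : Ideal.span {c} ≤ LinearMap.ker (S.mkQ ∘ₗ LinearMap.toSpanSingleton A N x) := by
    rw [Ideal.span_singleton_le_iff_mem, LinearMap.mem_ker]
    change Submodule.Quotient.mk (c • x) = _
    rwa [Submodule.Quotient.mk_eq_zero]
  have hk2 : LinearMap.ker (S.mkQ ∘ₗ LinearMap.toSpanSingleton A N x) ≤ Ideal.span {c} := by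
    intro α hα
    rw [LinearMap.mem_ker] at hα
    change Submodule.Quotient.mk (α • x) = (0 : N ⧸ S) at hα
    rw [Submodule.Quotient.mk_eq_zero] at hα
    obtain ⟨w, hw, z, hz, hwz⟩ := Submodule.mem_sup.1 hα
    obtain ⟨β, rfl⟩ := Submodule.mem_span_singleton.1 hz
    have h1 : (α - β * c) • x ∈ W := by
      have : (α - β * c) • x = w := by
        rw [sub_smul, mul_smul, ← hwz]; abel
      rw [this]; exact hw
    have h2 := hi _ h1
    rw [sub_eq_zero] at h2
    exact Ideal.mem_span_singleton'.2 ⟨β, h2.symm⟩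
  let i : (A ⧸ Ideal.span {c}) →ₗ[A] (N ⧸ S) :=
    (Ideal.span {c}).liftQ (S.mkQ ∘ₗ LinearMap.toSpanSingleton A N x) hk
  let p : (N ⧸ S) →ₗ[A] (N ⧸ T) := Submodule.mapQ S T LinearMap.id hST
  have hinj : Injective i := by
    rw [← LinearMap.ker_eq_bot]
    exact Submodule.ker_liftQ_eq_bot _ _ _ hk2
  have hsurj : Surjective p := by
    intro y
    obtain ⟨y, rfl⟩ := Submodule.Quotient.mk_surjective _ y
    exact ⟨Submodule.Quotient.mk y, rfl⟩
  have hex : Exact i p := by
    intro y
    obtain ⟨y, rfl⟩ := Submodule.Quotient.mk_surjective _ y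
    change Submodule.Quotient.mk y = (0 : N ⧸ T) ↔ _
    rw [Submodule.Quotient.mk_eq_zero]
    constructor
    · intro hy
      obtain ⟨w, hw, z, hz, hwz⟩ := Submodule.mem_sup.1 hy
      obtain ⟨β, rfl⟩ := Submodule.mem_span_singleton.1 hz
      refine ⟨Submodule.Quotient.mk β, ?_⟩
      change Submodule.Quotient.mk (β • x) = Submodule.Quotient.mk y
      rw [Submodule.Quotient.eq, ← hwz]
      have : β • x - (w + β • x) = - w := by abel
      rw [this]
      exact S.neg_mem ((le_sup_left : W ≤ S) hw)
    · rintro ⟨a, ha⟩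
      obtain ⟨a, rfl⟩ := Submodule.Quotient.mk_surjective _ a
      change Submodule.Quotient.mk (a • x) = Submodule.Quotient.mk y at ha
      rw [Submodule.Quotient.eq] at ha
      have h1 := hST ha
      have h2 := T.sub_mem (T.smul_mem a hxT) h1
      simpa using h2
  have h := fr_exact (k := k) i p hinj hex hsurj hr
  obtain ⟨m, hm⟩ := hE c hc
  rw [h, hm]
  push_cast
  have h2 : (2 : ZMod 2) = 0 := by decide
  linear_combination (m : ZMod 2) * h2

/-- finite independent sets with torsion quotient -/
structure GS (A : Type) [CommRing A] {N : Type} [AddCommGroup N] [Module A N] (B : Finset N) :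
    Prop where
  ind : ∀ x ∈ B, ∀ γ : A, γ • x ∈ Submodule.span A ((B : Set N) \ {x}) → γ = 0
  tor : ∀ y : N, ∃ u : A, u ≠ 0 ∧ u • y ∈ Submodule.span A (B : Set N)

theorem rk_quot (hA : ∀ u : A, u ≠ 0 → Module.rank k (A ⧸ Ideal.span {u}) < Cardinal.aleph0)
    (hf : Module.Finite A N) (S : Submodule A N)
    (ht : ∀ y : N, ∃ u : A, u ≠ 0 ∧ u • y ∈ S) : Module.rank k (N ⧸ S) < Cardinal.aleph0 := by
  refine rk_tor hA inferInstance ?_
  intro y
  obtain ⟨y, rfl⟩ := Submodule.Quotient.mk_surjective _ y
  obtain ⟨u, hu, h⟩ := ht y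
  refine ⟨u, hu, ?_⟩
  rw [← Submodule.Quotient.mk_smul, Submodule.Quotient.mk_eq_zero]
  exact h

open Classical in
theorem exch (hA : ∀ u : A, u ≠ 0 → Module.rank k (A ⧸ Ideal.span {u}) < Cardinal.aleph0)
    (hE : ∀ u : A, u ≠ 0 → Even (Module.finrank k (A ⧸ Ideal.span {u})))
    (hf : Module.Finite A N) {B : Finset N} (hB : GS A B) {x y : N} (hx : x ∈ B) (hy : y ∉ B)
    {u a : A} (hu : u ≠ 0) (ha : a ≠ 0) {s : N}
    (hs : s ∈ Submodule.span A ((B : Set N) \ {x})) (h : u • y = a • x + s) :
    GS A (insert y (B.erase x)) ∧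
    (Module.finrank k (N ⧸ (Submodule.span A ((insert y (B.erase x) : Finset N) : Set N))) : ZMod 2) =
      Module.finrank k (N ⧸ (Submodule.span A (B : Set N))) := by
  set W := Submodule.span A ((B : Set N) \ {x}) with hW
  have hB1 : Submodule.span A (B : Set N) = W ⊔ Submodule.span A {x} := by
    rw [hW, ← Submodule.span_union]
    congr 1
    ext z
    simp only [Set.mem_union, Set.mem_sdiff, Set.mem_singleton_iff, Finset.mem_coe]
    constructor
    · intro hz
      by_cases hzx : z = x
      · exact Or.inr hzx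
      · exact Or.inl ⟨hz, hzx⟩
    · rintro (hz | rfl)
      · exact hz.1
      · exact hx
  have hB2 : Submodule.span A ((insert y (B.erase x) : Finset N) : Set N) =
      W ⊔ Submodule.span A {y} := by
    rw [Finset.coe_insert, Finset.coe_erase, Submodule.span_insert, sup_comm]
  have hix : ∀ γ : A, γ • x ∈ W → γ = 0 := hB.ind x hx
  have hiy : ∀ γ : A, γ • y ∈ W → γ = 0 := by
    intro γ hγ
    have h1 : (γ * a) • x ∈ W := by
      have : (γ * a) • x = u • (γ • y) - γ • s := by
        rw [smul_comm u γ y, h, smul_add, mul_smul]; abel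
      rw [this]
      exact W.sub_mem (W.smul_mem _ hγ) (W.smul_mem _ hs)
    have h2 := hix _ h1
    rcases mul_eq_zero.1 h2 with h3 | h3
    · exact h3
    · exact absurd h3 ha
  have hS : W ⊔ Submodule.span A {u • y} = W ⊔ Submodule.span A {a • x} := by
    apply le_antisymm
    · refine sup_le le_sup_left ?_
      rw [Submodule.span_singleton_le_iff_mem, h]
      exact Submodule.add_mem _ ((le_sup_right : Submodule.span A {a • x} ≤ _)
        (Submodule.mem_span_singleton_self _)) ((le_sup_left : W ≤ _) hs)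
    · refine sup_le le_sup_left ?_
      rw [Submodule.span_singleton_le_iff_mem]
      have : a • x = u • y - s := by rw [h]; abel
      rw [this]
      exact Submodule.sub_mem _ ((le_sup_right : Submodule.span A {u • y} ≤ _)
        (Submodule.mem_span_singleton_self _)) ((le_sup_left : W ≤ _) hs)
  have htS : ∀ t : N, ∃ v : A, v ≠ 0 ∧ v • t ∈ W ⊔ Submodule.span A {a • x} := by
    intro t
    obtain ⟨v, hv, hvt⟩ := hB.tor t
    rw [hB1] at hvt
    obtain ⟨w, hw, z, hz, hwz⟩ := Submodule.mem_sup.1 hvt
    obtain ⟨β, rfl⟩ := Submodule.mem_span_singleton.1 hz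
    refine ⟨a * v, mul_ne_zero ha hv, ?_⟩
    rw [mul_smul, ← hwz, smul_add, smul_comm a β x]
    exact Submodule.add_mem _ ((le_sup_left : W ≤ _) (W.smul_mem _ hw))
      (Submodule.smul_mem _ _ ((le_sup_right : Submodule.span A {a • x} ≤ _)
        (Submodule.mem_span_singleton_self _)))
  have hr := rk_quot (k := k) hA hf _ htS
  have e1 := scal (k := k) hE W x a ha hix hr
  have e2 := scal (k := k) hE W y u hu hiy (by rw [hS]; exact hr)
  refine ⟨⟨?_, ?_⟩, ?_⟩
  · intro z hz γ hγ
    by_cases hzy : z = y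
    · subst hzy
      refine hiy γ ?_
      refine Submodule.span_mono ?_ hγ
      intro v hv
      simp only [Finset.coe_insert, Finset.coe_erase, Set.mem_sdiff, Set.mem_insert_iff,
        Finset.mem_coe, Set.mem_singleton_iff] at hv ⊢
      tauto
    · have hzB : z ∈ B ∧ z ≠ x := by
        rw [Finset.mem_insert, Finset.mem_erase] at hz
        tauto
      have h1 : γ • z ∈ Submodule.span A (insert y (((B : Set N) \ {x}) \ {z})) := by
        refine Submodule.span_mono ?_ hγ
        intro v hv
        simp only [Finset.coe_insert, Finset.coe_erase, Set.mem_sdiff, Set.mem_insert_iff,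
          Finset.mem_coe, Set.mem_singleton_iff] at hv ⊢
        tauto
      rw [Submodule.mem_span_insert] at h1
      obtain ⟨δ, w, hw, hwz⟩ := h1
      have hwW : w ∈ W := Submodule.span_mono Set.sdiff_subset hw
      have hzW : z ∈ W := Submodule.subset_span ⟨hzB.1, hzB.2⟩
      have hδ : δ = 0 := by
        apply hiy
        have : δ • y = γ • z - w := by rw [hwz]; abel
        rw [this]
        exact W.sub_mem (W.smul_mem _ hzW) hwW
      rw [hδ, zero_smul, zero_add] at hwz
      refine hB.ind z hzB.1 γ ?_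
      rw [hwz]
      exact Submodule.span_mono (Set.sdiff_subset_sdiff_left Set.sdiff_subset) hw
  · intro t
    obtain ⟨v, hv, hvt⟩ := htS t
    refine ⟨v, hv, ?_⟩
    rw [hB2]
    rw [← hS] at hvt
    refine (sup_le_sup_left ?_ W) hvt
    rw [Submodule.span_singleton_le_iff_mem]
    exact Submodule.smul_mem _ _ (Submodule.mem_span_singleton_self _)
  · rw [hB2, hB1, ← e1, ← e2, hS]

open Classical in
theorem chain (hA : ∀ u : A, u ≠ 0 → Module.rank k (A ⧸ Ideal.span {u}) < Cardinal.aleph0)
    (hE : ∀ u : A, u ≠ 0 → Even (Module.finrank k (A ⧸ Ideal.span {u})))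
    (hf : Module.Finite A N) {B B' : Finset N} (hB : GS A B) (hB' : GS A B') :
    (Module.finrank k (N ⧸ (Submodule.span A (B : Set N))) : ZMod 2) =
      Module.finrank k (N ⧸ (Submodule.span A (B' : Set N))) := by
  have key : ∀ s : Finset N, s ⊆ B' → ∃ D : Finset N, GS A D ∧ s ⊆ D ∧
      (Module.finrank k (N ⧸ (Submodule.span A (D : Set N))) : ZMod 2) =
        Module.finrank k (N ⧸ (Submodule.span A (B : Set N))) := by
    intro s
    induction s using Finset.induction_on with
    | empty => intro _; exact ⟨B, hB, Finset.empty_subset _, rfl⟩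
    | insert y s hys ih =>
      intro hsub
      obtain ⟨D, hD, hsD, hq⟩ := ih (fun z hz => hsub (Finset.mem_insert_of_mem hz))
      by_cases hyD : y ∈ D
      · exact ⟨D, hD, Finset.insert_subset hyD hsD, hq⟩
      · obtain ⟨u, hu, huy⟩ := hD.tor y
        obtain ⟨f, hfs, hfy⟩ := Submodule.mem_span_finset.1 huy
        have hex : ∃ x ∈ D, x ∉ s ∧ f x ≠ 0 := by
          by_contra hcon
          push Not at hcon
          have h1 : u • y ∈ Submodule.span A ((B' : Set N) \ {y}) := by
            rw [← hfy]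
            refine Submodule.sum_mem _ ?_
            intro z hz
            by_cases hzs : z ∈ s
            · refine Submodule.smul_mem _ _ (Submodule.subset_span ⟨hsub (Finset.mem_insert_of_mem hzs), ?_⟩)
              rintro rfl
              exact hys hzs
            · rw [hcon z hz hzs, zero_smul]
              exact Submodule.zero_mem _
          exact hu (hB'.ind y (hsub (Finset.mem_insert_self _ _)) u h1)
        obtain ⟨x, hxD, hxs, hfx⟩ := hex
        have hsum : u • y = f x • x + ∑ z ∈ D.erase x, f z • z := by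
          rw [← hfy, Finset.add_sum_erase D (fun z => f z • z) hxD]
        have hs2 : ∑ z ∈ D.erase x, f z • z ∈ Submodule.span A ((D : Set N) \ {x}) := by
          refine Submodule.sum_mem _ ?_
          intro z hz
          rw [Finset.mem_erase] at hz
          exact Submodule.smul_mem _ _ (Submodule.subset_span ⟨hz.2, hz.1⟩)
        obtain ⟨g1, g2⟩ := exch (k := k) hA hE hf hD hxD hyD hu hfx hs2 hsum
        refine ⟨_, g1, ?_, g2.trans hq⟩
        refine Finset.insert_subset (Finset.mem_insert_self _ _) ?_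
        intro z hz
        refine Finset.mem_insert_of_mem (Finset.mem_erase.2 ⟨?_, hsD hz⟩)
        rintro rfl
        exact hxs hz
  obtain ⟨D, hD, hsD, hq⟩ := key B' (Finset.Subset.refl _)
  have hDB : D = B' := by
    apply Finset.Subset.antisymm _ hsD
    intro x hx
    by_contra hxB
    obtain ⟨u, hu, hux⟩ := hB'.tor x
    refine hu (hD.ind x hx u (Submodule.span_mono ?_ hux))
    intro z hz
    refine ⟨hsD hz, ?_⟩
    rintro rfl
    exact hxB hz
  rw [← hq, hDB]

end gs

section gm

variable {k A : Type} [CommRing k] [IsDomain k] [CommRing A] [IsDomain A] [Algebra k A]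
  {N : Type} [AddCommGroup N] [Module A N] [Module k N] [IsScalarTower k A N]

/-- good maps -/
structure GM {A L N : Type} [CommRing A] [AddCommGroup L] [Module A L] [AddCommGroup N]
    [Module A N] (f : L →ₗ[A] N) : Prop where
  inj : Injective f
  tor : ∀ y : N, ∃ u : A, u ≠ 0 ∧ u • y ∈ LinearMap.range f

omit [IsDomain k] [Module k N] [IsScalarTower k A N] [Algebra k A] [CommRing k] in
open Classical in
theorem gs_of_gm {L : Type} [AddCommGroup L] [Module A L] [Module.Free A L] [Module.Finite A L]
    (f : L →ₗ[A] N) (hf : GM f) :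
    ∃ B : Finset N, GS A B ∧ Submodule.span A (B : Set N) = LinearMap.range f := by
  let e := Module.Free.chooseBasis A L
  let b : Module.Free.ChooseBasisIndex A L → N := fun j => f (e j)
  have hb : LinearIndependent A b :=
    e.linearIndependent.map' f (LinearMap.ker_eq_bot.2 hf.inj)
  have hspan : Submodule.span A (Set.range b) = LinearMap.range f := by
    have : Set.range b = f '' (Set.range e) := by
      rw [← Set.range_comp]; rfl
    rw [this, Submodule.span_image, e.span_eq, LinearMap.range_eq_map]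
  refine ⟨Finset.univ.image b, ⟨?_, ?_⟩, ?_⟩
  · intro x hx γ hγ
    obtain ⟨j, -, rfl⟩ := Finset.mem_image.1 hx
    refine (linearIndependent_iff_eq_zero_of_smul_mem_span.1 hb) j γ ?_
    refine Submodule.span_mono ?_ hγ
    rintro z ⟨hz, hzj⟩
    rw [Finset.coe_image] at hz
    obtain ⟨i, -, rfl⟩ := hz
    refine ⟨i, ⟨Set.mem_univ _, ?_⟩, rfl⟩
    rintro rfl
    exact hzj rfl
  · intro y
    rw [Finset.coe_image, Finset.coe_univ, Set.image_univ, hspan]
    exact hf.tor y
  · rw [Finset.coe_image, Finset.coe_univ, Set.image_univ, hspan]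

theorem gm_indep (hA : ∀ u : A, u ≠ 0 → Module.rank k (A ⧸ Ideal.span {u}) < Cardinal.aleph0)
    (hE : ∀ u : A, u ≠ 0 → Even (Module.finrank k (A ⧸ Ideal.span {u})))
    (hN : Module.Finite A N) {L L' : Type} [AddCommGroup L] [Module A L] [Module.Free A L]
    [Module.Finite A L] [AddCommGroup L'] [Module A L'] [Module.Free A L'] [Module.Finite A L']
    (f : L →ₗ[A] N) (f' : L' →ₗ[A] N) (hf : GM f) (hf' : GM f') :
    (Module.finrank k (N ⧸ LinearMap.range f) : ZMod 2) =
      Module.finrank k (N ⧸ LinearMap.range f') := by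
  obtain ⟨B, hB, h1⟩ := gs_of_gm f hf
  obtain ⟨B', hB', h2⟩ := gs_of_gm f' hf'
  rw [← h1, ← h2]
  exact chain hA hE hN hB hB'

omit [IsDomain k] [Module k N] [IsScalarTower k A N] [Algebra k A] [CommRing k] in
theorem gm_ex (hN : Module.Finite A N) : ∃ (n : ℕ) (f : (Fin n → A) →ₗ[A] N), GM f := by
  classical
  obtain ⟨n, v, hv⟩ := Module.Finite.exists_fin (R := A) (M := N)
  obtain ⟨s, hs, ht⟩ := exists_maximal_linearIndepOn A v
  have hs2 : LinearIndependent A (fun i : s => v i) := hs
  let e : Fin (Fintype.card s) ≃ s := (Fintype.equivFin s).symm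
  have hb : LinearIndependent A (fun j => v (e j)) := hs2.comp e e.injective
  refine ⟨Fintype.card s, Fintype.linearCombination A (fun j => v (e j)), ?_, ?_⟩
  · rw [← LinearMap.ker_eq_bot, LinearMap.ker_eq_bot']
    intro g hg
    rw [Fintype.linearCombination_apply] at hg
    funext j
    exact Fintype.linearIndependent_iff.1 hb g hg j
  · have hr : LinearMap.range (Fintype.linearCombination A (fun j => v (e j))) =
        Submodule.span A (v '' s) := by
      rw [Fintype.range_linearCombination]
      congr 1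
      ext z
      constructor
      · rintro ⟨j, rfl⟩
        exact ⟨e j, (e j).2, rfl⟩
      · rintro ⟨i, hi, rfl⟩
        exact ⟨e.symm ⟨i, hi⟩, by simp⟩
    rw [hr]
    intro y
    have hy : y ∈ Submodule.span A (Set.range v) := by rw [hv]; trivial
    induction hy using Submodule.span_induction with
    | mem x hx =>
      obtain ⟨i, rfl⟩ := hx
      by_cases hi : i ∈ s
      · exact ⟨1, one_ne_zero, by rw [one_smul]; exact Submodule.subset_span ⟨i, hi, rfl⟩⟩
      · exact ht i hi
    | zero => exact ⟨1, one_ne_zero, by rw [smul_zero]; exact Submodule.zero_mem _⟩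
    | add x z _ _ hx hz =>
      obtain ⟨u, hu, hux⟩ := hx
      obtain ⟨w, hw, hwz⟩ := hz
      refine ⟨u * w, mul_ne_zero hu hw, ?_⟩
      rw [smul_add]
      refine Submodule.add_mem _ ?_ ?_
      · rw [mul_comm, mul_smul]; exact Submodule.smul_mem _ _ hux
      · rw [mul_smul]; exact Submodule.smul_mem _ _ hwz
    | smul a x _ hx =>
      obtain ⟨u, hu, hux⟩ := hx
      refine ⟨u, hu, ?_⟩
      rw [smul_comm]
      exact Submodule.smul_mem _ _ hux

open Classical in
/-- the parity -/
noncomputable def chi (k A N : Type) [CommRing k] [CommRing A] [Algebra k A] [AddCommGroup N]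
    [Module A N] [Module k N] [IsScalarTower k A N] : ZMod 2 :=
  if h : ∃ (n : ℕ) (f : (Fin n → A) →ₗ[A] N), GM f then
    (Module.finrank k (N ⧸ LinearMap.range h.choose_spec.choose) : ZMod 2) else 0

theorem chi_eq (hA : ∀ u : A, u ≠ 0 → Module.rank k (A ⧸ Ideal.span {u}) < Cardinal.aleph0)
    (hE : ∀ u : A, u ≠ 0 → Even (Module.finrank k (A ⧸ Ideal.span {u})))
    (hN : Module.Finite A N) {L : Type} [AddCommGroup L] [Module A L] [Module.Free A L]
    [Module.Finite A L] (f : L →ₗ[A] N) (hf : GM f) :
    chi k A N = (Module.finrank k (N ⧸ LinearMap.range f) : ZMod 2) := by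
  have h := gm_ex (A := A) hN
  unfold chi
  rw [dif_pos h]
  exact gm_indep hA hE hN _ f h.choose_spec.choose_spec hf

theorem chi_tor (hA : ∀ u : A, u ≠ 0 → Module.rank k (A ⧸ Ideal.span {u}) < Cardinal.aleph0)
    (hE : ∀ u : A, u ≠ 0 → Even (Module.finrank k (A ⧸ Ideal.span {u})))
    (hN : Module.Finite A N) (ht : ∃ u : A, u ≠ 0 ∧ ∀ y : N, u • y = 0) :
    chi k A N = (Module.finrank k N : ZMod 2) := by
  have hg : GM (0 : PUnit.{1} →ₗ[A] N) := by
    refine ⟨Function.injective_of_subsingleton _, ?_⟩
    intro y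
    obtain ⟨u, hu, h⟩ := ht
    exact ⟨u, hu, by rw [h]; exact Submodule.zero_mem _⟩
  rw [chi_eq hA hE hN _ hg]
  have hr : LinearMap.range (0 : PUnit.{1} →ₗ[A] N) = ⊥ := LinearMap.range_zero
  have e : (N ⧸ LinearMap.range (0 : PUnit.{1} →ₗ[A] N)) ≃ₗ[A] N :=
    Submodule.quotEquivOfEqBot _ hr
  rw [(e.restrictScalars k).finrank_eq]

theorem chi_self (hA : ∀ u : A, u ≠ 0 → Module.rank k (A ⧸ Ideal.span {u}) < Cardinal.aleph0)
    (hE : ∀ u : A, u ≠ 0 → Even (Module.finrank k (A ⧸ Ideal.span {u}))) :
    chi k A A = 0 := by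
  have hg : GM (LinearMap.id : A →ₗ[A] A) := by
    refine ⟨Function.injective_id, ?_⟩
    intro y
    exact ⟨1, one_ne_zero, by rw [LinearMap.range_id]; trivial⟩
  rw [chi_eq hA hE inferInstance _ hg]
  have hr : LinearMap.range (LinearMap.id : A →ₗ[A] A) = ⊤ := LinearMap.range_id
  have hs : Subsingleton (A ⧸ LinearMap.range (LinearMap.id : A →ₗ[A] A)) := by
    rw [hr]; exact Submodule.Quotient.subsingleton_iff.2 rfl
  rw [Module.finrank_zero_of_subsingleton]
  rfl

theorem chi_exact {M Q : Type} [AddCommGroup M] [Module A M] [Module k M] [IsScalarTower k A M]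
    [AddCommGroup Q] [Module A Q] [Module k Q] [IsScalarTower k A Q]
    (hA : ∀ u : A, u ≠ 0 → Module.rank k (A ⧸ Ideal.span {u}) < Cardinal.aleph0)
    (hE : ∀ u : A, u ≠ 0 → Even (Module.finrank k (A ⧸ Ideal.span {u})))
    (hN : Module.Finite A N) (hM : Module.Finite A M) (hQ : Module.Finite A Q)
    (i : M →ₗ[A] N) (p : N →ₗ[A] Q) (hi : Injective i) (he : Exact i p) (hp : Surjective p) :
    chi k A N = chi k A M + chi k A Q := by
  obtain ⟨n, f1, h1⟩ := gm_ex (A := A) hM
  obtain ⟨m, f2, h2⟩ := gm_ex (A := A) hQ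
  obtain ⟨g, hg⟩ := Module.projective_lifting_property p f2 hp
  have hgc : ∀ c, p (g c) = f2 c := fun c => by rw [← hg]; rfl
  have hpi : ∀ z, p (i z) = 0 := fun z => (he (i z)).2 ⟨z, rfl⟩
  let f : ((Fin n → A) × (Fin m → A)) →ₗ[A] N := (i ∘ₗ f1).coprod g
  have hfv : ∀ a c, f (a, c) = i (f1 a) + g c := fun a c => rfl
  have hf : GM f := by
    refine ⟨?_, ?_⟩
    · rw [← LinearMap.ker_eq_bot, LinearMap.ker_eq_bot']
      rintro ⟨a, c⟩ h
      rw [hfv] at h
      have h3 : p (i (f1 a) + g c) = 0 := by rw [h, map_zero]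
      rw [map_add, hpi, zero_add, hgc] at h3
      have h4 : c = 0 := h2.inj (by rw [h3, map_zero])
      subst h4
      rw [map_zero, add_zero] at h
      have h5 : f1 a = 0 := hi (by rw [h, map_zero])
      have h6 : a = 0 := h1.inj (by rw [h5, map_zero])
      rw [h6]
      rfl
    · intro y
      obtain ⟨u, hu, c, hc⟩ := h2.tor (p y)
      have h3 : p (u • y - g c) = 0 := by rw [map_sub, map_smul, hgc, hc, sub_self]
      obtain ⟨z, hz⟩ := (he _).1 h3
      obtain ⟨v, hv, a, ha⟩ := h1.tor z
      refine ⟨v * u, mul_ne_zero hv hu, (a, v • c), ?_⟩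
      rw [hfv, ha, map_smul, map_smul, hz, smul_sub, mul_smul]
      abel
  have h1r : LinearMap.range f1 ≤ (LinearMap.range f).comap i := by
    rintro _ ⟨a, rfl⟩
    exact ⟨(a, 0), by rw [hfv, map_zero, add_zero]⟩
  have h2r : LinearMap.range f ≤ (LinearMap.range f2).comap p := by
    rintro _ ⟨⟨a, c⟩, rfl⟩
    exact ⟨c, by rw [hfv, map_add, hpi, zero_add, hgc]⟩
  let j : (M ⧸ LinearMap.range f1) →ₗ[A] (N ⧸ LinearMap.range f) := Submodule.mapQ _ _ i h1r
  let q : (N ⧸ LinearMap.range f) →ₗ[A] (Q ⧸ LinearMap.range f2) := Submodule.mapQ _ _ p h2r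
  have hj : Injective j := by
    rw [← LinearMap.ker_eq_bot, LinearMap.ker_eq_bot']
    intro z hz
    obtain ⟨z, rfl⟩ := Submodule.Quotient.mk_surjective _ z
    change Submodule.Quotient.mk (i z) = (0 : N ⧸ LinearMap.range f) at hz
    rw [Submodule.Quotient.mk_eq_zero] at hz
    obtain ⟨⟨a, c⟩, hac⟩ := hz
    rw [hfv] at hac
    have h3 : p (i (f1 a) + g c) = 0 := by rw [hac, hpi]
    rw [map_add, hpi, zero_add, hgc] at h3
    have h4 : c = 0 := h2.inj (by rw [h3, map_zero])
    subst h4
    rw [map_zero, add_zero] at hac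
    rw [Submodule.Quotient.mk_eq_zero]
    exact ⟨a, hi hac⟩
  have hq : Surjective q := by
    intro y
    obtain ⟨y, rfl⟩ := Submodule.Quotient.mk_surjective _ y
    obtain ⟨y, rfl⟩ := hp y
    exact ⟨Submodule.Quotient.mk y, rfl⟩
  have hjq : Exact j q := by
    intro y
    obtain ⟨y, rfl⟩ := Submodule.Quotient.mk_surjective _ y
    change Submodule.Quotient.mk (p y) = (0 : Q ⧸ LinearMap.range f2) ↔ _
    rw [Submodule.Quotient.mk_eq_zero]
    constructor
    · rintro ⟨c, hc⟩
      have h3 : p (y - g c) = 0 := by rw [map_sub, hgc, hc, sub_self]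
      obtain ⟨z, hz⟩ := (he _).1 h3
      refine ⟨Submodule.Quotient.mk z, ?_⟩
      change Submodule.Quotient.mk (i z) = Submodule.Quotient.mk y
      rw [Submodule.Quotient.eq]
      refine ⟨(0, -c), ?_⟩
      rw [hfv, map_zero, map_zero, zero_add, map_neg, hz]
      abel
    · rintro ⟨z, hz⟩
      obtain ⟨z, rfl⟩ := Submodule.Quotient.mk_surjective _ z
      change Submodule.Quotient.mk (i z) = Submodule.Quotient.mk y at hz
      rw [Submodule.Quotient.eq] at hz
      have h3 := h2r hz
      rw [Submodule.mem_comap, map_sub, hpi, zero_sub] at h3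
      have h4 := Submodule.neg_mem _ h3
      rwa [neg_neg] at h4
  rw [chi_eq hA hE hN f hf, chi_eq hA hE hM f1 h1, chi_eq hA hE hQ f2 h2]
  have hr := rk_quot (k := k) hA hN (LinearMap.range f) hf.tor
  rw [fr_exact (k := k) j q hj hjq hq hr]
  push_cast
  rfl

end gm

end PR0

theorem PR0.chi_congr (k A N : Type) [CommRing k] [CommRing A] [Algebra k A] [AddCommGroup N]
    [Module A N] (m1 m2 : Module k N) (t1 : @IsScalarTower k A N _ _ m1.toSMul)
    (t2 : @IsScalarTower k A N _ _ m2.toSMul) (h : m1 = m2) :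
    @PR0.chi k A N _ _ _ _ _ m1 t1 = @PR0.chi k A N _ _ _ _ _ m2 t2 := by
  subst h
  rfl

theorem hPR0 : StPR0 := by
  intro k A _ _ _ _ _ _ _ h
  have hA := fun u hu => (h u hu).1
  have hE := fun u hu => (h u hu).2
  have htw : ∀ (M : Type) [AddCommGroup M] [Module A M],
      @IsScalarTower k A M _ _ (Module.compHom M (algebraMap k A)).toSMul := by
    intro M _ _
    let _ := Module.compHom M (algebraMap k A)
    exact ⟨fun x y z => by
      change (x • y) • z = (algebraMap k A x) • (y • z)
      rw [Algebra.smul_def, mul_smul]⟩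
  refine ⟨{
    f := fun M _ _ =>
      letI := Module.compHom M (algebraMap k A)
      haveI := htw M
      PR0.chi k A M
    exact' := ?_ }, ?_, ?_⟩
  · intro M N Q _ _ _ _ _ _ i p hN _ hi he hp
    letI := Module.compHom M (algebraMap k A)
    letI := Module.compHom N (algebraMap k A)
    letI := Module.compHom Q (algebraMap k A)
    haveI := htw M
    haveI := htw N
    haveI := htw Q
    have hM : Module.Finite A M := Module.Finite.of_injective i hi
    have hQ : Module.Finite A Q := Module.Finite.of_surjective p hp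
    exact PR0.chi_exact hA hE hN hM hQ i p hi he hp
  · have e : Module.compHom A (algebraMap k A) = (inferInstance : Module k A) :=
      Module.ext' _ _ (fun r x => (Algebra.smul_def r x).symm)
    exact (PR0.chi_congr k A A _ _ _ _ e).trans (PR0.chi_self (k := k) (A := A) hA hE)
  · intro N _ _ m1 t1 hN ht
    have e : Module.compHom N (algebraMap k A) = m1 :=
      Module.ext' _ _ (fun r x => algebraMap_smul A r x)
    exact (PR0.chi_congr k A N _ _ _ _ e).trans (PR0.chi_tor (k := k) (A := A) hA hE hN ht)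

end Pool.Agent.Helper6.FX
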